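import Pool.Agent.Work.MP_78fef3_co.Main

namespace Pool.Agent.Work.MP_78fef3_co.Parked.NoQuasiregular

/-- For every real `C`, every integer `k ≥ 2` and every real `F` there is a graph with `n ≥ 1`
vertices and at least `F n` edges in which no subgraph (with at least one vertex) has all its
degrees strictly between `k` and `C k`. -/
theorem result :
    ∀ (C : ℝ) (k : ℕ), 2 ≤ k → ∀ F : ℝ,
      ∃ (n : ℕ) (G : SimpleGraph (Fin n)), 0 < n ∧ F * n ≤ (G.edgeSet.ncard : ℝ) ∧
        ∀ H : G.Subgraph, H.verts.Nonempty →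
          ¬ ∀ x ∈ H.verts, k < (H.neighborSet x).ncard ∧ ((H.neighborSet x).ncard : ℝ) < C * k := by
  intro C k hk F
  obtain ⟨n, G, hn, hF, hG⟩ := Pool.Agent.Work.MP_78fef3_co.main ⌈C * k⌉₊ F
  refine ⟨n, G, hn, hF, fun H hH h => hG H hH fun x hx => ⟨?_, ?_⟩⟩
  · have := (h x hx).1
    omega
  · have := (h x hx).2.le.trans (Nat.le_ceil (C * k))
    exact_mod_cast this

end Pool.Agent.Work.MP_78fef3_co.Parked.NoQuasiregular
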