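import Pool.Agent.Work.MP_78fef3_co.S.Upper
import Pool.Agent.Work.MP_78fef3_co.S.Lower

namespace Pool.Agent.Results.MP_78fef3_co.SharpThreshold

/-- `G` has a subgraph with at least one vertex in which every degree (counted inside the
subgraph) lies strictly between `k` and `C k`. -/
def HasQuasiregular {n : ℕ} (G : SimpleGraph (Fin n)) (k : ℕ) (C : ℝ) : Prop :=
  ∃ H : G.Subgraph, H.verts.Nonempty ∧
    ∀ x ∈ H.verts, k < (H.neighborSet x).ncard ∧ ((H.neighborSet x).ncard : ℝ) < C * k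

/-- The largest number of edges of a graph on `n` vertices with no `(k, C)`-quasiregular
subgraph. -/
noncomputable def qex (n k : ℕ) (C : ℝ) : ℕ :=
  sSup {m | ∃ G : SimpleGraph (Fin n), ¬ HasQuasiregular G k C ∧ G.edgeSet.ncard = m}

/-- For every `C > 1`, all large `k` and all large `n`, the extremal number lies between
`k (k - 1) / 2 * n log log n` and `k (k + 1) / 2 * n log log n`. -/
theorem result :
    ∀ C : ℝ, 1 < C → ∃ k₀ : ℕ, ∀ k ≥ k₀, ∃ n₀ : ℕ, ∀ n ≥ n₀,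
      (k : ℝ) * (k - 1) / 2 * n * Real.log (Real.log n) ≤ qex n k C ∧
        (qex n k C : ℝ) ≤ (k : ℝ) * (k + 1) / 2 * n * Real.log (Real.log n) := by
  intro C hC
  obtain ⟨k0, hk0⟩ := Pool.Agent.Work.MP_78fef3_co.S.upper C hC
  refine ⟨k0 + 7, fun k hk => ?_⟩
  obtain ⟨n0, hn0⟩ := hk0 k (by omega)
  obtain ⟨n1, hn1⟩ := Pool.Agent.Work.MP_78fef3_co.S.lower C k (by omega)
  refine ⟨n0 + n1, fun n hn => ?_⟩
  obtain ⟨G, hG, hGe⟩ := hn1 n (by omega)
  have hfin : {m | ∃ G : SimpleGraph (Fin n),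
      ¬ HasQuasiregular G k C ∧ G.edgeSet.ncard = m}.Finite :=
    (Set.finite_range fun G : SimpleGraph (Fin n) => G.edgeSet.ncard).subset
      fun _ ⟨G, _, h⟩ => ⟨G, h⟩
  refine ⟨hGe.trans (Nat.cast_le.2 (le_csSup hfin.bddAbove ⟨G, hG, rfl⟩)), ?_⟩
  obtain ⟨G', hG', h⟩ := Nat.sSup_mem (s := {m | ∃ G : SimpleGraph (Fin n),
    ¬ HasQuasiregular G k C ∧ G.edgeSet.ncard = m}) ⟨_, G, hG, rfl⟩ hfin.bddAbove
  rw [qex, ← h]
  exact hn0 n (by omega) G' hG'

end Pool.Agent.Results.MP_78fef3_co.SharpThreshold
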